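import Pool.Agent.H.MP_431f4e_gt.Abs
import Pool.Agent.H.MP_431f4e_gt.Low
import Pool.Agent.H.MP_431f4e_gt.Upp

namespace Pool.Agent.Results.MP_431f4e_gt.DiscCircle

open Pool.Agent.H.MP_431f4e_gt

/-- The unit circle of the Euclidean plane is nonempty (needed to write `ghDist`). -/
instance circleNonempty : Nonempty (Metric.sphere (0 : EuclideanSpace ℝ (Fin 2)) 1) :=
  (NormedSpace.sphere_nonempty.mpr zero_le_one).to_subtype

/-- The Gromov-Hausdorff distance between the closed unit disc and the unit circle, both with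
the Euclidean metric of the plane. -/
noncomputable def dGH : ℝ :=
  GromovHausdorff.ghDist (Metric.closedBall (0 : EuclideanSpace ℝ (Fin 2)) 1)
    (Metric.sphere (0 : EuclideanSpace ℝ (Fin 2)) 1)

theorem result :
    4 * dGH ^ 3 - 16 * dGH ^ 2 + 21 * dGH - 8 = 0 ∧ 0.65218 ≤ dGH ∧ dGH ≤ 0.6522 := by
  obtain ⟨c, h, P, hc⟩ := par_exists
  have c1 := P.c1
  have c2 := P.c2
  let e := Complex.orthonormalBasisOneI.repr
  have up : dGH ≤ c := by
    refine gh_le (fun x y => Rel c h (e.symm x.1) (e.symm y.1)) c (by linarith) ?_ ?_ ?_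
    · intro x
      have hx : ‖e.symm x.1‖ ≤ 1 := by
        rw [e.symm.norm_map]
        exact mem_closedBall_zero_iff.1 x.2
      obtain ⟨z, hz, hR⟩ := rel_left (c := c) (h := h) hx
      exact ⟨⟨e z, by simp [hz]⟩, by simpa using hR⟩
    · intro y
      have hy : ‖e.symm y.1‖ = 1 := by
        rw [e.symm.norm_map]
        simp
      obtain ⟨u, hu, hR⟩ := rel_right P hy
      exact ⟨⟨e u, by simp [hu]⟩, by simpa using hR⟩
    · intro x y x' y' h1 h2
      have := rel_dis P h1 h2
      rwa [← map_sub, ← map_sub, e.symm.norm_map, e.symm.norm_map, ← dist_eq_norm,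
        ← dist_eq_norm, ← Subtype.dist_eq, ← Subtype.dist_eq] at this
  have lo : c ≤ dGH := by
    by_contra hh
    push Not at hh
    obtain ⟨f, D, hD, hf⟩ := gh_fun c hh
    classical
    let g : ℂ → ℂ := fun u =>
      if hu : ‖u‖ ≤ 1 then e.symm (f ⟨e u, by simp [hu]⟩).1 else 1
    refine lower P g ?_ D hD ?_
    · intro u hu
      simp only [g, dif_pos hu]
      rw [e.symm.norm_map]
      simp
    · intro u v hu hv
      simp only [g, dif_pos hu, dif_pos hv]
      have := hf ⟨e u, by simp [hu]⟩ ⟨e v, by simp [hv]⟩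
      simp only [Subtype.dist_eq, dist_eq_norm] at this
      rw [← map_sub, e.symm.norm_map, ← e.norm_map (u - v), map_sub]
      exact this
  have : dGH = c := le_antisymm up lo
  rw [this]
  exact ⟨hc, c1, c2⟩

end Pool.Agent.Results.MP_431f4e_gt.DiscCircle
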